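import Mathlib

/-!
# A polarization module whose Hilbert series is not h-positive

For `ℓ = n = 2` the diagonally symmetric polynomial
`f = (x₁₁x₂₂ - x₁₂x₂₁)(x₁₁ - x₁₂)`, homogeneous of multidegree `(2,1)`, has a polarization module
whose Hilbert series is not `h`-positive: its part of total degree `3` is spanned by `f` and
`f' = (x₁₁x₂₂ - x₁₂x₂₁)(x₂₁ - x₂₂)`, so the series has the coefficient `1` at `q₁²q₂` and `0` at `q₁³`.
-/

set_option autoImplicit false

namespace Pool.Agent.Results.MP_55095a_co.NotHPositive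

open MvPolynomial

/-- The polynomial ring `ℂ[x_{ij}]`, `i < l`, `j < n`. -/
abbrev R (l n : ℕ) := MvPolynomial (Fin l × Fin n) ℂ

/-- The multidegree `(∑_j s_{1j}, …, ∑_j s_{ℓj})` of the monomial `x^s`. -/
def mdeg {l n : ℕ} (s : (Fin l × Fin n) →₀ ℕ) : Fin l → ℕ := fun i => ∑ j, s (i, j)

/-- `R_d`: the polynomials all of whose monomials have multidegree `d`. -/
def comp (l n : ℕ) (d : Fin l → ℕ) : Submodule ℂ (R l n) where
  carrier := {g | ∀ s, coeff s g ≠ 0 → mdeg s = d}
  add_mem' := by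
    intro a b ha hb s hs
    by_cases h : coeff s a = 0
    · refine hb s fun h' => hs ?_
      rw [coeff_add, h, h', add_zero]
    · exact ha s h
  zero_mem' := by
    intro s hs
    exact absurd (coeff_zero s) hs
  smul_mem' := by
    intro c a ha s hs
    refine ha s fun h => hs ?_
    rw [coeff_smul, h, smul_zero]

/-- The diagonal action of a permutation of the columns: `x_{ij} ↦ x_{i σ(j)}`. -/
noncomputable def act {l n : ℕ} (σ : Equiv.Perm (Fin n)) : R l n →ₐ[ℂ] R l n :=
  rename fun p => (p.1, σ p.2)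

/-- The generalized polarization operator `E^{(p)}_{i,k} = ∑_j x_{ij} ∂_{kj}^p`. -/
noncomputable def pol {l n : ℕ} (i k : Fin l) (p : ℕ) (g : R l n) : R l n :=
  ∑ j, X (i, j) * (⇑(pderiv (R := ℂ) (k, j)))^[p] g

/-- The polarization module of `f`: the smallest subspace which contains the `S_n`-orbit of `f` and
is closed under all `∂_{ij}` and all `E^{(p)}_{i,k}`, `p ≥ 1`. -/
noncomputable def polMod {l n : ℕ} (f : R l n) : Submodule ℂ (R l n) :=
  sInf {W | (∀ σ : Equiv.Perm (Fin n), act σ f ∈ W) ∧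
    (∀ g ∈ W, ∀ v, pderiv v g ∈ W) ∧ ∀ g ∈ W, ∀ i k p, 1 ≤ p → pol i k p g ∈ W}

/-- The coefficient of `q^d` in the Hilbert series of the polarization module of `f`. -/
noncomputable def hilb {l n : ℕ} (f : R l n) (d : Fin l → ℕ) : ℕ :=
  Module.finrank ℂ (polMod f ⊓ comp l n d : Submodule ℂ (R l n))

/-- A family of coefficients `H d` (a power series in `q₁, …, q_ℓ`) is `h`-positive if it is a
finite sum `∑ a_μ h_μ` with natural numbers `a_μ`, where `h_μ = ∏ h_{μ_i}`. -/
def HPositive {l : ℕ} (H : (Fin l → ℕ) → ℕ) : Prop :=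
  ∃ a : Multiset ℕ →₀ ℕ, ∀ d : Fin l → ℕ,
    H d = coeff (Finsupp.equivFunOnFinite.symm d)
      (∑ μ ∈ a.support, a μ • (μ.map (hsymm (Fin l) ℕ)).prod)

/-! ### Degrees -/

section deg

variable {τ : Type*}

lemma deg_sum (s : τ →₀ ℕ) : (s.sum fun _ e => e) = s.degree := rfl

lemma td_pderiv (i : τ) (g : MvPolynomial τ ℂ) :
    (pderiv i g).totalDegree ≤ g.totalDegree - 1 := by
  classical
  have h1 : pderiv i g = ∑ s ∈ g.support, pderiv i (monomial s (coeff s g)) := by
    conv_lhs => rw [← support_sum_monomial_coeff g]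
    rw [map_sum]
  rw [h1]
  refine totalDegree_finsetSum_le fun s hs => ?_
  rw [pderiv_monomial]
  by_cases h0 : s i = 0
  · simp [h0]
  refine (totalDegree_monomial_le _ _).trans ?_
  change (s - Finsupp.single i 1).degree ≤ _
  have h2 := le_totalDegree hs
  rw [deg_sum] at h2
  have h3 : s.degree = (s - Finsupp.single i 1).degree + 1 := by
    have h4 : s = (s - Finsupp.single i 1) + Finsupp.single i 1 := by
      ext a
      rw [Finsupp.add_apply, Finsupp.tsub_apply, Finsupp.single_apply]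
      split_ifs with h
      · subst h; omega
      · simp
    conv_lhs => rw [h4]
    rw [map_add, Finsupp.degree_single]
  omega

lemma td_iter (i : τ) (p : ℕ) (g : MvPolynomial τ ℂ) :
    ((⇑(pderiv (R := ℂ) i))^[p] g).totalDegree ≤ g.totalDegree - p := by
  induction p generalizing g with
  | zero => simp
  | succ p ih =>
    rw [Function.iterate_succ_apply]
    refine (ih _).trans ?_
    have := td_pderiv i g
    omega

lemma td_pol {l n : ℕ} (i k : Fin l) (p : ℕ) (g : R l n) :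
    (pol i k p g).totalDegree ≤ 1 + (g.totalDegree - p) := by
  refine totalDegree_finsetSum_le fun j _ => ?_
  refine (totalDegree_mul _ _).trans (add_le_add ?_ (td_iter _ _ _))
  exact (totalDegree_X _).le

lemma pol_add {l n : ℕ} (i k : Fin l) (p : ℕ) (g h : R l n) :
    pol i k p (g + h) = pol i k p g + pol i k p h := by
  have key : ∀ (v : Fin l × Fin n) (p : ℕ) (g h : R l n), (⇑(pderiv (R := ℂ) v))^[p] (g + h) =
      (⇑(pderiv (R := ℂ) v))^[p] g + (⇑(pderiv (R := ℂ) v))^[p] h := by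
    intro v p
    induction p with
    | zero => intro g h; rfl
    | succ p ih => intro g h; rw [Function.iterate_succ_apply, map_add, ih]; rfl
  simp only [pol, key, mul_add, Finset.sum_add_distrib]

lemma pol_smul {l n : ℕ} (i k : Fin l) (p : ℕ) (c : ℂ) (g : R l n) :
    pol i k p (c • g) = c • pol i k p g := by
  have key : ∀ (v : Fin l × Fin n) (p : ℕ) (g : R l n), (⇑(pderiv (R := ℂ) v))^[p] (c • g) =
      c • (⇑(pderiv (R := ℂ) v))^[p] g := by
    intro v p
    induction p with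
    | zero => intro g; rfl
    | succ p ih => intro g; rw [Function.iterate_succ_apply, Derivation.map_smul, ih]; rfl
  simp only [pol, key, mul_smul_comm, Finset.smul_sum]

end deg

/-! ### The example -/

/-- `f = (x₁₁x₂₂ - x₁₂x₂₁)(x₁₁ - x₁₂)`. -/
noncomputable def f₀ : R 2 2 :=
  (X (0, 0) * X (1, 1) - X (0, 1) * X (1, 0)) * (X (0, 0) - X (0, 1))

/-- `f' = (x₁₁x₂₂ - x₁₂x₂₁)(x₂₁ - x₂₂)`. -/
noncomputable def f₁ : R 2 2 :=
  (X (0, 0) * X (1, 1) - X (0, 1) * X (1, 0)) * (X (1, 0) - X (1, 1))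

/-- The exponent of the product of three variables. -/
noncomputable def ex (a b c : Fin 2 × Fin 2) : (Fin 2 × Fin 2) →₀ ℕ :=
  Finsupp.single a 1 + Finsupp.single b 1 + Finsupp.single c 1

lemma XXX (a b c : Fin 2 × Fin 2) :
    (X a * X b * X c : R 2 2) = monomial (ex a b c) 1 := by
  simp only [X, monomial_mul, ex, one_mul]

lemma f₀_eq : f₀ = monomial (ex (0,0) (0,0) (1,1)) 1 - monomial (ex (0,0) (0,1) (1,1)) 1
    - monomial (ex (0,0) (0,1) (1,0)) 1 + monomial (ex (0,1) (0,1) (1,0)) 1 := by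
  simp only [← XXX, f₀]
  ring

lemma f₁_eq : f₁ = monomial (ex (0,0) (1,0) (1,1)) 1 - monomial (ex (0,0) (1,1) (1,1)) 1
    - monomial (ex (0,1) (1,0) (1,0)) 1 + monomial (ex (0,1) (1,0) (1,1)) 1 := by
  simp only [← XXX, f₁]
  ring

lemma ex_ne {a b c a' b' c' : Fin 2 × Fin 2} (v : Fin 2 × Fin 2)
    (h : (if a = v then 1 else 0) + (if b = v then 1 else 0) + (if c = v then 1 else 0) ≠
      (if a' = v then 1 else 0) + (if b' = v then 1 else 0) + (if c' = v then 1 else (0:ℕ))) :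
    ex a b c ≠ ex a' b' c' := by
  intro he
  apply h
  have := DFunLike.congr_fun he v
  simpa only [ex, Finsupp.add_apply, Finsupp.single_apply] using this

lemma ex_deg (a b c : Fin 2 × Fin 2) : (ex a b c).degree = 3 := by
  simp [ex]

lemma mdeg_sum (s : (Fin 2 × Fin 2) →₀ ℕ) : mdeg s 0 + mdeg s 1 = s.degree := by
  rw [Finsupp.degree_eq_sum]
  simp [mdeg, Fintype.sum_prod_type]

lemma c00 : coeff (ex (0,0) (0,0) (1,1)) f₀ = 1 := by
  rw [f₀_eq]
  rw [coeff_add, coeff_sub, coeff_sub, coeff_monomial, coeff_monomial, coeff_monomial,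
    coeff_monomial]
  rw [if_pos rfl, if_neg (ex_ne (0,0) (by decide)), if_neg (ex_ne (0,0) (by decide)),
    if_neg (ex_ne (0,0) (by decide))]
  ring

lemma c01 : coeff (ex (0,0) (0,0) (1,1)) f₁ = 0 := by
  rw [f₁_eq]
  simp only [coeff_add, coeff_sub, coeff_monomial]
  rw [if_neg (ex_ne (0,0) (by decide)), if_neg (ex_ne (0,0) (by decide)),
    if_neg (ex_ne (0,0) (by decide)), if_neg (ex_ne (0,0) (by decide))]
  ring

lemma c11 : coeff (ex (0,0) (1,1) (1,1)) f₁ = -1 := by
  rw [f₁_eq]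
  rw [coeff_add, coeff_sub, coeff_sub, coeff_monomial, coeff_monomial, coeff_monomial,
    coeff_monomial]
  rw [if_neg (ex_ne (1,1) (by decide)), if_pos rfl,
    if_neg (ex_ne (1,1) (by decide)), if_neg (ex_ne (1,1) (by decide))]
  ring

lemma c10 : coeff (ex (0,0) (1,1) (1,1)) f₀ = 0 := by
  rw [f₀_eq]
  simp only [coeff_add, coeff_sub, coeff_monomial]
  rw [if_neg (ex_ne (1,1) (by decide)), if_neg (ex_ne (1,1) (by decide)),
    if_neg (ex_ne (1,1) (by decide)), if_neg (ex_ne (1,1) (by decide))]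
  ring

lemma f₀_comp : f₀ ∈ comp 2 2 ![2, 1] := by
  have hm : ∀ a b c : Fin 2 × Fin 2, mdeg (ex a b c) = ![2, 1] →
      (monomial (ex a b c) 1 : R 2 2) ∈ comp 2 2 ![2, 1] := by
    intro a b c h s hs
    rw [coeff_monomial] at hs
    split_ifs at hs with h'
    · rw [← h', h]
    · exact absurd rfl hs
  rw [f₀_eq]
  refine Submodule.add_mem _ (Submodule.sub_mem _ (Submodule.sub_mem _ (hm _ _ _ ?_)
    (hm _ _ _ ?_)) (hm _ _ _ ?_)) (hm _ _ _ ?_) <;>
  · funext i
    fin_cases i <;> simp [mdeg, ex, Finsupp.single_apply]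

lemma f₀_symm (σ : Equiv.Perm (Fin 2)) : act σ f₀ = f₀ := by
  have h01 : (σ 0 = 0 ∧ σ 1 = 1) ∨ (σ 0 = 1 ∧ σ 1 = 0) := by
    revert σ; decide
  rcases h01 with ⟨h0, h1⟩ | ⟨h0, h1⟩
  · simp only [act, f₀, map_mul, map_sub, rename_X, h0, h1]
  · simp only [act, f₀, map_mul, map_sub, rename_X, h0, h1]
    ring

lemma f₀_td : f₀.totalDegree ≤ 3 := by
  rw [f₀]
  refine (totalDegree_mul _ _).trans ?_
  refine (add_le_add (a := _) (b := 2) (c := _) (d := 1) ?_ ?_).trans (by norm_num)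
  · refine (totalDegree_sub _ _).trans (max_le ?_ ?_) <;>
    · refine (totalDegree_mul _ _).trans ?_
      rw [totalDegree_X, totalDegree_X]
  · refine (totalDegree_sub _ _).trans (max_le ?_ ?_) <;>
    rw [totalDegree_X]

lemma f₁_td : f₁.totalDegree ≤ 3 := by
  rw [f₁]
  refine (totalDegree_mul _ _).trans ?_
  refine (add_le_add (a := _) (b := 2) (c := _) (d := 1) ?_ ?_).trans (by norm_num)
  · refine (totalDegree_sub _ _).trans (max_le ?_ ?_) <;>
    · refine (totalDegree_mul _ _).trans ?_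
      rw [totalDegree_X, totalDegree_X]
  · refine (totalDegree_sub _ _).trans (max_le ?_ ?_) <;>
    rw [totalDegree_X]

/-- The stable space `span {f, f'} + (polynomials of degree ≤ 2)`. -/
noncomputable def W₀ : Submodule ℂ (R 2 2) :=
  Submodule.span ℂ {f₀, f₁} ⊔ restrictTotalDegree (Fin 2 × Fin 2) ℂ 2

lemma low_mem {g : R 2 2} (h : g.totalDegree ≤ 2) : g ∈ W₀ :=
  Submodule.mem_sup_right ((mem_restrictTotalDegree _ _ _).2 h)

lemma f₀_mem : f₀ ∈ W₀ := Submodule.mem_sup_left (Submodule.subset_span (by simp))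

lemma f₁_mem : f₁ ∈ W₀ := Submodule.mem_sup_left (Submodule.subset_span (by simp))

lemma mem_W {g : R 2 2} (h : g ∈ W₀) :
    ∃ (a b : ℂ) (r : R 2 2), r.totalDegree ≤ 2 ∧ g = a • f₀ + b • f₁ + r := by
  obtain ⟨u, hu, r, hr, rfl⟩ := Submodule.mem_sup.1 h
  obtain ⟨a, b, rfl⟩ := Submodule.mem_span_pair.1 hu
  exact ⟨a, b, r, (mem_restrictTotalDegree _ _ _).1 hr, rfl⟩

lemma pol_one (i k : Fin 2) : pol i k 1 f₀ ∈ W₀ ∧ pol i k 1 f₁ ∈ W₀ := by
  have h1 : pol (0 : Fin 2) 0 1 f₀ = f₀ + f₀ := by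
    simp [pol, f₀, Fin.sum_univ_two, Derivation.leibniz, pderiv_X, Pi.single_apply]
    ring
  have h2 : pol (0 : Fin 2) 1 1 f₀ = 0 := by
    simp [pol, f₀, Fin.sum_univ_two, Derivation.leibniz, pderiv_X, Pi.single_apply]
    ring
  have h3 : pol (1 : Fin 2) 0 1 f₀ = f₁ := by
    simp [pol, f₀, f₁, Fin.sum_univ_two, Derivation.leibniz, pderiv_X, Pi.single_apply]
    ring
  have h4 : pol (1 : Fin 2) 1 1 f₀ = f₀ := by
    simp [pol, f₀, Fin.sum_univ_two, Derivation.leibniz, pderiv_X, Pi.single_apply]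
    ring
  have h5 : pol (0 : Fin 2) 0 1 f₁ = f₁ := by
    simp [pol, f₁, Fin.sum_univ_two, Derivation.leibniz, pderiv_X, Pi.single_apply]
    ring
  have h6 : pol (0 : Fin 2) 1 1 f₁ = f₀ := by
    simp [pol, f₀, f₁, Fin.sum_univ_two, Derivation.leibniz, pderiv_X, Pi.single_apply]
    ring
  have h7 : pol (1 : Fin 2) 0 1 f₁ = 0 := by
    simp [pol, f₁, Fin.sum_univ_two, Derivation.leibniz, pderiv_X, Pi.single_apply]
    ring
  have h8 : pol (1 : Fin 2) 1 1 f₁ = f₁ + f₁ := by
    simp [pol, f₁, Fin.sum_univ_two, Derivation.leibniz, pderiv_X, Pi.single_apply]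
    ring
  have g1 : pol (0 : Fin 2) 0 1 f₀ ∈ W₀ := by rw [h1]; exact Submodule.add_mem _ f₀_mem f₀_mem
  have g2 : pol (0 : Fin 2) 1 1 f₀ ∈ W₀ := by rw [h2]; exact Submodule.zero_mem _
  have g3 : pol (1 : Fin 2) 0 1 f₀ ∈ W₀ := by rw [h3]; exact f₁_mem
  have g4 : pol (1 : Fin 2) 1 1 f₀ ∈ W₀ := by rw [h4]; exact f₀_mem
  have g5 : pol (0 : Fin 2) 0 1 f₁ ∈ W₀ := by rw [h5]; exact f₁_mem
  have g6 : pol (0 : Fin 2) 1 1 f₁ ∈ W₀ := by rw [h6]; exact f₀_mem
  have g7 : pol (1 : Fin 2) 0 1 f₁ ∈ W₀ := by rw [h7]; exact Submodule.zero_mem _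
  have g8 : pol (1 : Fin 2) 1 1 f₁ ∈ W₀ := by rw [h8]; exact Submodule.add_mem _ f₁_mem f₁_mem
  fin_cases i <;> fin_cases k
  · exact ⟨g1, g5⟩
  · exact ⟨g2, g6⟩
  · exact ⟨g3, g7⟩
  · exact ⟨g4, g8⟩

lemma polMod_le : polMod f₀ ≤ W₀ := by
  refine sInf_le ⟨fun σ => ?_, fun g hg v => ?_, fun g hg i k p hp => ?_⟩
  · rw [f₀_symm]; exact f₀_mem
  · obtain ⟨a, b, r, hr, rfl⟩ := mem_W hg
    rw [map_add, map_add, Derivation.map_smul, Derivation.map_smul]
    refine Submodule.add_mem _ (Submodule.add_mem _ (Submodule.smul_mem _ _ (low_mem ?_))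
      (Submodule.smul_mem _ _ (low_mem ?_))) (low_mem ?_)
    · have := td_pderiv v f₀; have := f₀_td; omega
    · have := td_pderiv v f₁; have := f₁_td; omega
    · have := td_pderiv v r; omega
  · obtain ⟨a, b, r, hr, rfl⟩ := mem_W hg
    rw [pol_add, pol_add, pol_smul, pol_smul]
    refine Submodule.add_mem _ (Submodule.add_mem _ (Submodule.smul_mem _ _ ?_)
      (Submodule.smul_mem _ _ ?_)) (low_mem ?_)
    · rcases Nat.lt_or_ge 1 p with h | h
      · exact low_mem (by have := td_pol i k p f₀; have := f₀_td; omega)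
      · obtain rfl : p = 1 := le_antisymm h hp
        exact (pol_one i k).1
    · rcases Nat.lt_or_ge 1 p with h | h
      · exact low_mem (by have := td_pol i k p f₁; have := f₁_td; omega)
      · obtain rfl : p = 1 := le_antisymm h hp
        exact (pol_one i k).2
    · have := td_pol i k p r; omega

lemma coeff_low {r : R 2 2} (hr : r.totalDegree ≤ 2) {s : (Fin 2 × Fin 2) →₀ ℕ}
    (hs : s.degree = 3) : coeff s r = 0 := by
  by_contra h
  have := le_totalDegree (mem_support_iff.2 h)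
  rw [deg_sum] at this
  omega

lemma hilb30 : hilb f₀ ![3, 0] = 0 := by
  have h : (polMod f₀ ⊓ comp 2 2 ![3, 0] : Submodule ℂ (R 2 2)) = ⊥ := by
    rw [eq_bot_iff]
    rintro g ⟨hg1, hg2⟩
    obtain ⟨a, b, r, hr, rfl⟩ := mem_W (polMod_le hg1)
    have ha : a = 0 := by
      by_contra h0
      have := hg2 (ex (0,0) (0,0) (1,1)) (by
        rw [coeff_add, coeff_add, coeff_smul, coeff_smul, c00, c01, coeff_low hr (ex_deg _ _ _)]
        simpa using h0)
      have := congrFun this 1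
      simp [mdeg, ex, Finsupp.single_apply] at this
    have hb : b = 0 := by
      by_contra h0
      have := hg2 (ex (0,0) (1,1) (1,1)) (by
        rw [coeff_add, coeff_add, coeff_smul, coeff_smul, c10, c11, coeff_low hr (ex_deg _ _ _)]
        simpa using h0)
      have := congrFun this 1
      simp [mdeg, ex, Finsupp.single_apply] at this
    subst ha hb
    rw [zero_smul, zero_smul, zero_add, zero_add] at hg2 ⊢
    rw [Submodule.mem_bot]
    ext s
    rw [coeff_zero]
    by_contra h0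
    have h1 := hg2 s h0
    have h2 := mdeg_sum s
    rw [h1] at h2
    have h3 : s.degree = 3 := by rw [← h2]; rfl
    exact h0 (coeff_low hr h3)
  rw [hilb, h, finrank_bot]

lemma hilb21 : hilb f₀ ![2, 1] ≠ 0 := by
  have hle : (polMod f₀ ⊓ comp 2 2 ![2, 1] : Submodule ℂ (R 2 2)) ≤
      Submodule.span ℂ {f₀, f₁} := by
    rintro g ⟨hg1, hg2⟩
    obtain ⟨a, b, r, hr, rfl⟩ := mem_W (polMod_le hg1)
    have hdeg : ∀ g' : R 2 2, (∀ s, coeff s g' ≠ 0 → s.degree = 3) → g'.totalDegree ≤ 2 →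
        g' = 0 := by
      intro g' h1 h2
      ext s
      rw [coeff_zero]
      by_contra h0
      exact h0 (coeff_low h2 (h1 s h0))
    have hf : ∀ s, coeff s f₀ ≠ 0 → s.degree = 3 := by
      intro s hs
      rw [← mdeg_sum, f₀_comp s hs]; rfl
    have hf' : ∀ s, coeff s f₁ ≠ 0 → s.degree = 3 := by
      intro s hs
      by_contra h3
      apply hs
      have hne : ∀ a b c, ex a b c ≠ s := by
        rintro a b c rfl
        exact h3 (ex_deg _ _ _)
      rw [f₁_eq]
      simp only [coeff_add, coeff_sub, coeff_monomial, if_neg (hne _ _ _)]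
      ring
    have hr0 : r = 0 := by
      refine hdeg r (fun s hs => ?_) hr
      by_contra h3
      have e0 : coeff s f₀ = 0 := by
        by_contra h; exact h3 (hf s h)
      have e1 : coeff s f₁ = 0 := by
        by_contra h; exact h3 (hf' s h)
      have := hg2 s (by
        rw [coeff_add, coeff_add, coeff_smul, coeff_smul, e0, e1]
        simpa using hs)
      have h2 := mdeg_sum s
      rw [this] at h2
      exact h3 (by rw [← h2]; rfl)
    rw [hr0, add_zero]
    exact Submodule.add_mem _ (Submodule.smul_mem _ _ (Submodule.subset_span (by simp)))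
      (Submodule.smul_mem _ _ (Submodule.subset_span (by simp)))
  have hfin : Module.Finite ℂ (Submodule.span ℂ {f₀, f₁} : Submodule ℂ (R 2 2)) :=
    Module.Finite.span_of_finite ℂ (by simp)
  have hfin2 : Module.Finite ℂ (polMod f₀ ⊓ comp 2 2 ![2, 1] : Submodule ℂ (R 2 2)) :=
    Submodule.finiteDimensional_of_le hle
  rw [hilb, Ne, Module.finrank_eq_zero_iff_of_free, ← not_nontrivial_iff_subsingleton, not_not]
  have hmem : f₀ ∈ (polMod f₀ ⊓ comp 2 2 ![2, 1] : Submodule ℂ (R 2 2)) := by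
    refine ⟨?_, f₀_comp⟩
    rw [polMod, SetLike.mem_coe, Submodule.mem_sInf]
    intro W hW
    have := hW.1 1
    rwa [f₀_symm] at this
  refine ⟨⟨f₀, hmem⟩, 0, fun h => ?_⟩
  have h0 : f₀ = 0 := congrArg Subtype.val h
  have := c00
  rw [h0, coeff_zero] at this
  exact zero_ne_one this

/-! ### The symmetric functions -/

lemma coeff_mul_ge (g h : MvPolynomial (Fin 2) ℕ) (d e : Fin 2 →₀ ℕ) :
    coeff d g * coeff e h ≤ coeff (d + e) (g * h) := by
  classical
  rw [coeff_mul]
  exact Finset.single_le_sum (f := fun x : (Fin 2 →₀ ℕ) × (Fin 2 →₀ ℕ) => coeff x.1 g * coeff x.2 h)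
    (fun _ _ => Nat.zero_le _)
    (Finset.HasAntidiagonal.mem_antidiagonal.2 rfl :
      (d, e) ∈ Finset.HasAntidiagonal.antidiagonal (d + e))

lemma hsymm_one_le (k : ℕ) : 1 ≤ coeff (Finsupp.single 0 k) (hsymm (Fin 2) ℕ k) := by
  classical
  rw [hsymm, coeff_sum]
  have h1 : coeff (Finsupp.single 0 k)
      (((Sym.replicate k (0 : Fin 2)).1.map (X : Fin 2 → MvPolynomial (Fin 2) ℕ)).prod) = 1 := by
    rw [Sym.val_eq_coe, Sym.coe_replicate, Multiset.map_replicate, Multiset.prod_replicate,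
      X_pow_eq_monomial, coeff_monomial, if_pos rfl]
  refine h1.symm.le.trans ?_
  exact Finset.single_le_sum (f := fun s : Sym (Fin 2) k =>
    coeff (Finsupp.single 0 k) ((s.1.map (X : Fin 2 → MvPolynomial (Fin 2) ℕ)).prod))
    (fun _ _ => Nat.zero_le _) (Finset.mem_univ (Sym.replicate k (0 : Fin 2)))

lemma hmu_one_le (μ : Multiset ℕ) :
    1 ≤ coeff (Finsupp.single 0 μ.sum) (μ.map (hsymm (Fin 2) ℕ)).prod := by
  induction μ using Multiset.induction_on with
  | empty => simp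
  | cons k μ ih =>
    rw [Multiset.sum_cons, Multiset.map_cons, Multiset.prod_cons, Finsupp.single_add]
    refine le_trans ?_ (coeff_mul_ge _ _ _ _)
    exact Nat.mul_le_mul (hsymm_one_le k) ih

lemma hsymm_hom (k : ℕ) : (hsymm (Fin 2) ℕ k).IsHomogeneous k := by
  refine IsHomogeneous.sum _ _ _ fun s _ => ?_
  have h : ∀ m : Multiset (Fin 2),
      ((m.map (X : Fin 2 → MvPolynomial (Fin 2) ℕ)).prod).IsHomogeneous m.card := by
    intro m
    induction m using Multiset.induction_on with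
    | empty => simpa using isHomogeneous_one (Fin 2) ℕ
    | cons a m ih =>
      rw [Multiset.map_cons, Multiset.prod_cons, Multiset.card_cons, add_comm]
      exact (isHomogeneous_X _ _).mul ih
  have := h s.1
  rwa [s.2] at this

lemma hmu_hom (μ : Multiset ℕ) : ((μ.map (hsymm (Fin 2) ℕ)).prod).IsHomogeneous μ.sum := by
  induction μ using Multiset.induction_on with
  | empty => simpa using isHomogeneous_one (Fin 2) ℕ
  | cons k μ ih =>
    rw [Multiset.sum_cons, Multiset.map_cons, Multiset.prod_cons]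
    exact (hsymm_hom k).mul ih

theorem not_hpos (H : (Fin 2 → ℕ) → ℕ) (h1 : H ![2, 1] ≠ 0) (h2 : H ![3, 0] = 0) :
    ¬ HPositive H := by
  rintro ⟨a, ha⟩
  have e1 := ha ![2, 1]
  have e2 := ha ![3, 0]
  rw [h2, coeff_sum] at e2
  rw [coeff_sum] at e1
  rw [e1] at h1
  obtain ⟨μ, hμ, hne⟩ := Finset.exists_ne_zero_of_sum_ne_zero h1
  rw [coeff_smul] at hne
  have hc : coeff (Finsupp.equivFunOnFinite.symm ![2, 1]) (μ.map (hsymm (Fin 2) ℕ)).prod ≠ 0 :=
    fun h => hne (by rw [h, smul_zero])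
  have hsum : μ.sum = 3 := by
    have := hmu_hom μ hc
    rw [← this, Finsupp.weight_apply, Finsupp.sum_fintype _ _ (by simp)]
    simp [Fin.sum_univ_two]
  have h3 := (Finset.sum_eq_zero_iff.1 e2.symm) μ hμ
  rw [coeff_smul, smul_eq_mul, mul_eq_zero] at h3
  rcases h3 with h3 | h3
  · exact (Finsupp.mem_support_iff.1 hμ) h3
  · have h4 := hmu_one_le μ
    have h5 : (Finsupp.single 0 μ.sum : Fin 2 →₀ ℕ) = Finsupp.equivFunOnFinite.symm ![3, 0] := by
      ext i
      rw [hsum]
      fin_cases i <;> simp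
    rw [h5, h3] at h4
    omega

/-- For `ℓ = n = 2` there is a diagonally symmetric polynomial, homogeneous of multidegree `(2,1)`,
whose polarization module has a Hilbert series which is not `h`-positive. -/
theorem result : ∃ f : R 2 2, f ∈ comp 2 2 ![2, 1] ∧ (∀ σ : Equiv.Perm (Fin 2), act σ f = f) ∧
    ¬ HPositive (hilb f) :=
  ⟨f₀, f₀_comp, f₀_symm, not_hpos _ hilb21 hilb30⟩

end Pool.Agent.Results.MP_55095a_co.NotHPositive
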